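import Pool.Agent.Q283.LS.Stm

/-!
# Project LS, job KUM: a homomorphism modulo 2 belongs to a square root
-/

set_option autoImplicit false

namespace Pool.Agent.Q299.LS

open Pool.Agent.Q283.LS IntermediateField

theorem two_dvd_iff (u : ℤ_[2]) : (2 : ℤ_[2]) ∣ u ↔ PadicInt.toZMod u = 0 := by
  have h1 : PadicInt.toZMod u = 0 ↔ u ∈ RingHom.ker (PadicInt.toZMod : ℤ_[2] →+* ZMod 2) := Iff.rfl
  rw [h1, PadicInt.ker_toZMod, PadicInt.maximalIdeal_eq_span_p, Ideal.mem_span_singleton]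
  norm_num

theorem odd_add_odd {u v : ℤ_[2]} (hu : ¬ (2 : ℤ_[2]) ∣ u) (hv : ¬ (2 : ℤ_[2]) ∣ v) : (2 : ℤ_[2]) ∣ u + v := by
  rw [two_dvd_iff] at hu hv ⊢
  rw [map_add]
  revert hu hv
  generalize (PadicInt.toZMod u : ZMod 2) = a
  generalize (PadicInt.toZMod v : ZMod 2) = b
  revert a b
  decide

theorem isClosed_even : IsClosed {u : ℤ_[2] | (2 : ℤ_[2]) ∣ u} := by
  have h1 : {u : ℤ_[2] | (2 : ℤ_[2]) ∣ u} = Set.range (fun v : ℤ_[2] => 2 * v) := by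
    ext u
    constructor
    · rintro ⟨v, hv⟩
      exact ⟨v, hv.symm⟩
    · rintro ⟨v, hv⟩
      exact ⟨v, hv.symm⟩
  rw [h1]
  exact (isCompact_range (by fun_prop)).isClosed

theorem kum : Pool.Agent.Q283.LS.S_KUM := by
  intro Ω _ _ _ _ F _ f hf hadd
  have hac : IsAlgClosure ℚ Ω := ⟨inferInstance, inferInstance⟩
  have hnormal : Normal ℚ Ω := IsAlgClosure.normal ℚ Ω
  have hgal : IsGalois ℚ Ω := ⟨⟩
  -- parity
  have hmul : ∀ σ τ, (2 : ℤ_[2]) ∣ f (σ * τ) ↔ (2 : ℤ_[2]) ∣ f σ + f τ := by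
    intro σ τ
    have h := hadd σ τ
    constructor
    · intro h1
      have := dvd_sub h1 h
      simpa using this
    · intro h1
      have := dvd_add h h1
      simpa using this
  have hone : (2 : ℤ_[2]) ∣ f 1 := by
    have h := hadd 1 1
    rw [one_mul] at h
    have h1 : f 1 - (f 1 + f 1) = - f 1 := by ring
    rw [h1] at h
    exact (dvd_neg.1 h)
  have hinv : ∀ σ, (2 : ℤ_[2]) ∣ f σ⁻¹ ↔ (2 : ℤ_[2]) ∣ f σ := by
    intro σ
    have h := hmul σ σ⁻¹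
    rw [mul_inv_cancel] at h
    have h1 := h.1 hone
    constructor
    · intro h2
      exact (dvd_add_left h2).1 h1
    · intro h2
      exact (dvd_add_right h2).1 h1
  -- the subgroup
  let N : Subgroup (Ω ≃ₐ[ℚ] Ω) :=
    { carrier := {σ | ∃ h : σ ∈ F.fixingSubgroup, (2 : ℤ_[2]) ∣ f ⟨σ, h⟩}
      mul_mem' := by
        rintro σ τ ⟨h1, h2⟩ ⟨h3, h4⟩
        exact ⟨F.fixingSubgroup.mul_mem h1 h3, (hmul ⟨σ, h1⟩ ⟨τ, h3⟩).2 (dvd_add h2 h4)⟩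
      one_mem' := ⟨F.fixingSubgroup.one_mem, hone⟩
      inv_mem' := by
        rintro σ ⟨h1, h2⟩
        exact ⟨F.fixingSubgroup.inv_mem h1, (hinv ⟨σ, h1⟩).2 h2⟩ }
  have hNF : N ≤ F.fixingSubgroup := fun σ h => h.1
  have hNclosed : IsClosed (N : Set (Ω ≃ₐ[ℚ] Ω)) := by
    have h1 : (N : Set (Ω ≃ₐ[ℚ] Ω)) = Subtype.val '' {σ : F.fixingSubgroup | (2 : ℤ_[2]) ∣ f σ} := by
      ext σ
      constructor
      · rintro ⟨h2, h3⟩
        exact ⟨⟨σ, h2⟩, h3, rfl⟩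
      · rintro ⟨⟨τ, h2⟩, h3, rfl⟩
        exact ⟨h2, h3⟩
    rw [h1]
    exact (InfiniteGalois.fixingSubgroup_isClosed F).isClosedEmbedding_subtypeVal.isClosedMap _
      (isClosed_even.preimage hf)
  have hFN : (fixedField N).fixingSubgroup = N :=
    InfiniteGalois.fixingSubgroup_fixedField ⟨N, hNclosed⟩
  by_cases hall : ∀ σ : F.fixingSubgroup, (2 : ℤ_[2]) ∣ f σ
  · exact ⟨1, 1, one_ne_zero, by simp, fun σ => ⟨fun _ => map_one _, fun _ => hall σ⟩⟩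
  push Not at hall
  obtain ⟨s, hs⟩ := hall
  have hsN : (s : Ω ≃ₐ[ℚ] Ω) ∉ N := fun h => hs h.2
  -- elements outside N
  have hout : ∀ σ ∈ F.fixingSubgroup, σ ∉ N → (s : Ω ≃ₐ[ℚ] Ω)⁻¹ * σ ∈ N := by
    intro σ h1 h2
    refine ⟨F.fixingSubgroup.mul_mem (F.fixingSubgroup.inv_mem s.2) h1, ?_⟩
    have h3 : ¬ (2 : ℤ_[2]) ∣ f ⟨σ, h1⟩ := fun h => h2 ⟨h1, h⟩
    exact (hmul s⁻¹ ⟨σ, h1⟩).2 (odd_add_odd (fun h => hs ((hinv s).1 h)) h3)
  have hss : (s : Ω ≃ₐ[ℚ] Ω) * s ∈ N := ⟨F.fixingSubgroup.mul_mem s.2 s.2, (hmul s s).2 (odd_add_odd hs hs)⟩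
  have hconj : ∀ n ∈ N, (s : Ω ≃ₐ[ℚ] Ω)⁻¹ * n * s ∈ N := by
    rintro n ⟨h1, h2⟩
    refine ⟨F.fixingSubgroup.mul_mem (F.fixingSubgroup.mul_mem (F.fixingSubgroup.inv_mem s.2) h1) s.2, ?_⟩
    refine (hmul (s⁻¹ * ⟨n, h1⟩) s).2 (odd_add_odd (fun h => ?_) hs)
    have h3 := (hmul s⁻¹ ⟨n, h1⟩).1 h
    exact hs ((hinv s).1 ((dvd_add_left h2).1 h3))
  -- an element of the fixed field of N outside F
  have hz : ∃ z ∈ fixedField N, z ∉ F := by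
    by_contra h
    push Not at h
    have h1 : fixedField N ≤ F := h
    have h2 := fixingSubgroup_antitone h1
    rw [hFN] at h2
    exact hsN (h2 s.2)
  obtain ⟨z, hzN, hzF⟩ := hz
  have hzfix : ∀ n ∈ N, n z = z := fun n hn => (mem_fixedField_iff N z).1 hzN n hn
  have hszfix : ∀ n ∈ N, n ((s : Ω ≃ₐ[ℚ] Ω) z) = (s : Ω ≃ₐ[ℚ] Ω) z := by
    intro n hn
    have h1 := hzfix _ (hconj n hn)
    have h2 := congrArg (s : Ω ≃ₐ[ℚ] Ω) h1
    simpa [AlgEquiv.mul_apply] using h2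
  have hssz : (s : Ω ≃ₐ[ℚ] Ω) ((s : Ω ≃ₐ[ℚ] Ω) z) = z := hzfix _ hss
  have hF : ∀ w : Ω, (∀ σ ∈ F.fixingSubgroup, σ w = w) → w ∈ F := by
    intro w hw
    rw [← InfiniteGalois.fixedField_fixingSubgroup F]
    exact (mem_fixedField_iff _ w).2 hw
  have hsplit : ∀ w : Ω, (∀ n ∈ N, n w = w) → (s : Ω ≃ₐ[ℚ] Ω) w = w → w ∈ F := by
    intro w h1 h2
    refine hF w fun σ hσ => ?_
    by_cases h3 : σ ∈ N
    · exact h1 σ h3
    · have h4 := h1 _ (hout σ hσ h3)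
      have h5 := congrArg (s : Ω ≃ₐ[ℚ] Ω) h4
      rw [h2] at h5
      simpa [AlgEquiv.mul_apply] using h5
  set y : Ω := z - (s : Ω ≃ₐ[ℚ] Ω) z with hy
  have hyN : ∀ n ∈ N, n y = y := by
    intro n hn
    rw [hy, map_sub, hzfix n hn, hszfix n hn]
  have hsy : (s : Ω ≃ₐ[ℚ] Ω) y = - y := by
    rw [hy, map_sub, hssz]
    ring
  have hy0 : y ≠ 0 := by
    intro h
    apply hzF
    refine hsplit z hzfix ?_
    rw [hy, sub_eq_zero] at h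
    exact h.symm
  have hy2 : y ^ 2 ∈ F := by
    refine hsplit _ (fun n hn => ?_) ?_
    · rw [map_pow, hyN n hn]
    · rw [map_pow, hsy]
      ring
  refine ⟨⟨y ^ 2, hy2⟩, y, ?_, rfl, ?_⟩
  · intro h
    have h1 := congrArg Subtype.val h
    exact pow_ne_zero 2 hy0 h1
  · intro σ
    constructor
    · intro h
      exact hyN _ ⟨σ.2, h⟩
    · intro h
      by_contra h1
      have h2 : σ.1 ∉ N := fun h3 => h1 h3.2
      have h4 := hyN _ (hout σ.1 σ.2 h2)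
      have h5 := congrArg (s : Ω ≃ₐ[ℚ] Ω) h4
      rw [hsy] at h5
      have h6 : σ.1 y = - y := by
        simpa [AlgEquiv.mul_apply] using h5
      rw [h] at h6
      exact hy0 (self_eq_neg.1 h6)

end Pool.Agent.Q299.LS
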