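import Pool.Agent.Q283.LS.Stm

/-!
# Project LS, job SAT: saturation of a lattice of functions
-/

set_option autoImplicit false

namespace Pool.Agent.Q299.LS

open Pool.Agent.Q283.LS Matrix

/-- Linearly independent functions have a nonzero determinant at suitable points. -/
theorem exists_det {R : Type} [CommRing R] [IsDomain R] {X : Type} (n : ℕ) (v : Fin n → X → R)
    (hv : LinearIndependent R v) : ∃ p : Fin n → X, det (Matrix.of fun i j => v j (p i)) ≠ 0 := by
  induction n with
  | zero => exact ⟨Fin.elim0, by simp⟩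
  | succ n ih =>
    obtain ⟨p', hp'⟩ := ih (fun i => v i.succ) (hv.comp _ (Fin.succ_injective n))
    have h1 : ∃ x, ∑ j : Fin (n + 1), (-1) ^ (j : ℕ) * v j x *
        det (Matrix.of fun (i : Fin n) (k : Fin n) => v (j.succAbove k) (p' i)) ≠ 0 := by
      by_contra h
      push Not at h
      have h2 := (Fintype.linearIndependent_iff.1 hv)
        (fun j => (-1) ^ (j : ℕ) * det (Matrix.of fun (i : Fin n) (k : Fin n) => v (j.succAbove k) (p' i))) (by
          ext x
          rw [Finset.sum_apply]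
          simp only [Pi.smul_apply, smul_eq_mul, Pi.zero_apply]
          rw [← h x]
          apply Finset.sum_congr rfl
          intro j _
          ring) 0
      simp only [Fin.val_zero, pow_zero, one_mul] at h2
      apply hp'
      rw [← h2]
      rfl
    obtain ⟨x, hx⟩ := h1
    refine ⟨Fin.cons x p', ?_⟩
    rw [Matrix.det_succ_row_zero]
    intro h
    apply hx
    rw [← h]
    apply Finset.sum_congr rfl
    intro j _
    rfl

theorem cons_succ' {X : Type} {t : ℕ} (b0 : X → ℤ_[2]) (b : Fin t → X → ℤ_[2]) (j : Fin t) :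
    (Fin.cons (α := fun _ => X → ℤ_[2]) b0 b) j.succ = b j := rfl

/-- The key step: a bad tuple can be replaced by one with half the determinant. -/
theorem sat_aux {X : Type} {t : ℕ} (b0 : X → ℤ_[2]) (hb0 : ∃ x, ¬ (2 : ℤ_[2]) ∣ b0 x) (V : Submodule ℤ_[2] (X → ℤ_[2]))
    (hV : b0 ∈ V) (p : Fin (t + 1) → X) (n : ℕ) :
    ∀ (b : Fin t → X → ℤ_[2]) (m : ℕ), (∀ j, (2 : ℤ_[2]) ^ m • b j ∈ V) →
      ¬ (2 : ℤ_[2]) ^ n ∣ det (Matrix.of fun i j => (Fin.cons (α := fun _ => X → ℤ_[2]) b0 b) j (p i)) →
      ∃ (b : Fin t → X → ℤ_[2]) (m : ℕ), (∀ j, (2 : ℤ_[2]) ^ m • b j ∈ V) ∧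
        ∀ (e0 : ZMod 2) (e : Fin t → ZMod 2), (∀ x, (2 : ℤ_[2]) ∣ (e0.val : ℤ_[2]) * b0 x +
          ∑ j, ((e j).val : ℤ_[2]) * b j x) → e0 = 0 ∧ e = 0 := by
  induction n with
  | zero =>
    intro b m _ h
    exact absurd (by simp) h
  | succ n ih =>
    intro b m hm hd
    by_cases hgood : ∀ (e0 : ZMod 2) (e : Fin t → ZMod 2), (∀ x, (2 : ℤ_[2]) ∣ (e0.val : ℤ_[2]) * b0 x +
          ∑ j, ((e j).val : ℤ_[2]) * b j x) → e0 = 0 ∧ e = 0
    · exact ⟨b, m, hm, hgood⟩
    push Not at hgood
    obtain ⟨e0, e, hdvd, hne⟩ := hgood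
    have h01 : ∀ z : ZMod 2, z ≠ 0 → z.val = 1 := by decide
    have he : e ≠ 0 := by
      intro he
      by_cases he0 : e0 = 0
      · exact hne he0 he
      · obtain ⟨x, hx⟩ := hb0
        apply hx
        have := hdvd x
        rw [he, h01 e0 he0] at this
        simpa using this
    obtain ⟨k, hk⟩ : ∃ k, e k ≠ 0 := by
      by_contra h
      push Not at h
      exact he (funext h)
    choose w hw using hdvd
    -- the new tuple
    have hnew := ih (Function.update b k w) (m + 1) (by
      intro j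
      by_cases hj : j = k
      · subst hj
        rw [Function.update_self]
        have h1 : (2 : ℤ_[2]) ^ (m + 1) • w = (2 : ℤ_[2]) ^ m • ((e0.val : ℤ_[2]) • b0 + ∑ j, ((e j).val : ℤ_[2]) • b j) := by
          ext x
          simp only [Pi.smul_apply, Pi.add_apply, Finset.sum_apply, smul_eq_mul]
          rw [hw x]
          ring
        rw [h1, smul_add, Finset.smul_sum]
        refine V.add_mem (V.smul_mem _ (V.smul_mem _ hV)) (V.sum_mem fun i _ => ?_)
        rw [smul_comm]
        exact V.smul_mem _ (hm i)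
      · rw [Function.update_of_ne hj, pow_succ, mul_comm, mul_smul]
        exact V.smul_mem _ (hm j)) (by
      intro hdv
      apply hd
      set M : Matrix (Fin (t + 1)) (Fin (t + 1)) ℤ_[2] := Matrix.of fun i j => (Fin.cons (α := fun _ => X → ℤ_[2]) b0 b) j (p i) with hM
      have h1 : (Matrix.of fun i j => (Fin.cons (α := fun _ => X → ℤ_[2]) b0 (Function.update b k w)) j (p i)) =
          M.updateCol k.succ (fun i => w (p i)) := by
        ext i j
        refine Fin.cases ?_ (fun j => ?_) j
        · rw [Matrix.updateCol_ne (Fin.succ_ne_zero k).symm]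
          rfl
        · by_cases hj : j = k
          · subst hj
            rw [Matrix.updateCol_self, Matrix.of_apply, Fin.cons_succ, Function.update_self]
          · rw [Matrix.updateCol_ne (fun h => hj (Fin.succ_injective _ h)), Matrix.of_apply, Fin.cons_succ,
              Function.update_of_ne hj]
            rfl
      have h2 := Matrix.det_updateCol_sum M k.succ (Fin.cons (α := fun _ => ℤ_[2]) (e0.val : ℤ_[2]) fun i => ((e i).val : ℤ_[2]))
      have h3 : (fun i => ∑ j, (Fin.cons (α := fun _ => ℤ_[2]) (e0.val : ℤ_[2]) (fun i => ((e i).val : ℤ_[2])) : Fin (t + 1) → ℤ_[2]) j • M i j) =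
          fun i => (2 : ℤ_[2]) • w (p i) := by
        ext i
        rw [Fin.sum_univ_succ]
        simp only [Fin.cons_zero, Fin.cons_succ, smul_eq_mul, hM, Matrix.of_apply]
        rw [← hw (p i)]
      rw [h3] at h2
      have h4 := Matrix.det_updateCol_smul M k.succ (2 : ℤ_[2]) (fun i => w (p i))
      have h5 : (fun i => (2 : ℤ_[2]) • w (p i)) = (2 : ℤ_[2]) • (fun i => w (p i)) := rfl
      rw [h5, h4, Fin.cons_succ, h01 _ hk, ← h1] at h2
      simp only [Nat.cast_one, one_smul] at h2
      rw [← h2, pow_succ, mul_comm]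
      exact mul_dvd_mul_left _ hdv)
    exact hnew

theorem sat : Pool.Agent.Q283.LS.S_SAT := by
  intro X t b0 c hli hb0
  obtain ⟨p, hp⟩ := exists_det (t + 1) _ hli
  have h2 : Prime (2 : ℤ_[2]) := by exact_mod_cast (PadicInt.prime_p (p := 2))
  obtain ⟨n, hn⟩ := FiniteMultiplicity.of_prime_left h2 hp
  obtain ⟨b, m, h1, h3⟩ := sat_aux b0 hb0 (Submodule.span ℤ_[2] (insert b0 (Set.range c)))
    (Submodule.subset_span (Set.mem_insert _ _)) p (n + 1) c 0
    (fun j => by
      rw [pow_zero, one_smul]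
      exact Submodule.subset_span (Set.mem_insert_of_mem _ ⟨j, rfl⟩)) hn
  exact ⟨b, m, h1, h3⟩

end Pool.Agent.Q299.LS
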