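import Pool.Agent.Q283.LS.Stm

/-!
# Project LS, job TF: the Tate-Shafarevich group is torsion-free
-/

set_option autoImplicit false

namespace Pool.Agent.Q299.LS

open Pool.Agent.Q283.LS

theorem tf (hNT : Pool.Agent.Q283.LS.S_NT) : Pool.Agent.Q283.LS.S_TF := by
  intro Ω _ _ _ _ K _ S r h2 hr
  constructor
  · intro hR f hf
    have hInd : ¬ Ind (fun σ : K.fixingSubgroup => chi σ.1 ^ r) (fun _ : Fin 1 => f) := by
      intro h
      exact hR ⟨fun _ => f, fun _ => hf, h⟩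
    unfold Ind at hInd
    push Not at hInd
    obtain ⟨a, ⟨b, hb⟩, ha⟩ := hInd
    have ha0 : a 0 ≠ 0 := by
      intro h
      apply ha
      ext i
      rw [Subsingleton.elim i 0, h]
      rfl
    have hb' : ∀ σ : K.fixingSubgroup, a 0 * f σ = (chi σ.1 ^ r - 1) * b := by
      intro σ
      have := hb σ
      simpa using this
    have hj : Nonempty (Ω →ₐ[ℚ] PadicAlgCl 2) := ⟨IsAlgClosed.lift⟩
    obtain ⟨j⟩ := hj
    haveI : Fact (Nat.Prime 2) := ⟨Nat.prime_two⟩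
    obtain ⟨β, hβ⟩ := hf.loc 2 h2 j.toRingHom
    obtain ⟨σ, hσK, hσD, hσ⟩ := hNT Ω K 2 j.toRingHom r hr
    have h1 := hβ ⟨σ, hσK⟩ hσD
    have h3 := hb' ⟨σ, hσK⟩
    simp only at h1 h3
    rw [h1] at h3
    have h4 : chi σ ^ r - 1 ≠ 0 := sub_ne_zero.2 hσ
    have h5 : a 0 * β = b := by
      apply mul_left_cancel₀ h4
      rw [← h3]
      ring
    refine ⟨β, fun τ => ?_⟩
    apply mul_left_cancel₀ ha0
    rw [hb' τ, ← h5]
    ring
  · intro h hR
    obtain ⟨f, hf, hI⟩ := hR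
    obtain ⟨b, hb⟩ := h (f 0) (hf 0)
    have h1 := hI (fun _ => 1) ⟨b, fun σ => by simpa using hb σ⟩
    exact one_ne_zero (congrFun h1 0)

end Pool.Agent.Q299.LS
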